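import Pool.Agent.K4W.StmtsF

/-! Row CL1 of the squad K4W: the first cusp. -/

set_option autoImplicit false

open scoped Classical

namespace Pool.Agent.K4W.H97

open Pool.Agent.K4W
open Pool.Agent.Helper69_Weyl (ee W)
open Pool.Agent.VM (Nr)

/-- the numerical part of CL1 -/
theorem cl1_num {z n q r X : ℝ} (hz : 30 ≤ z) (hn1 : z ^ 64000 ≤ n) (hn2 : n ≤ 2 * z ^ 64000)
    (hq1 : z ^ 111900 ≤ q) (hq2 : q ≤ z ^ 144200) (hr : r * z ^ 84 ≤ n)
    (hX : X = 8 * z ^ 127002) :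
    z * (768 * (r * X / q + 1) * (1 / (z ^ 84 * n) * q + 1)) * (3 * z ^ 164) ≤ X := by
  have z0 : 0 < z := by linarith
  have z1 : 1 ≤ z := by linarith
  have hn0 : 0 < n := lt_of_lt_of_le (pow_pos z0 64000) hn1
  have hq0 : 0 < q := lt_of_lt_of_le (pow_pos z0 111900) hq1
  have hX0 : 0 < X := by
    rw [hX]
    exact mul_pos (by norm_num) (pow_pos z0 127002)
  have e168 : z ^ 168 = z ^ 84 * z ^ 84 := by rw [← pow_add]
  have p84 : 0 < z ^ 84 := pow_pos z0 84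
  have p168 : 0 < z ^ 168 := pow_pos z0 168
  have ha : r * X / q * (1 / (z ^ 84 * n) * q) * z ^ 168 ≤ X := by
    have e1 : r * X / q * (1 / (z ^ 84 * n) * q) * z ^ 168 = X * (r * z ^ 84) / n := by
      rw [e168]
      field_simp
    rw [e1, div_le_iff₀ hn0]
    exact mul_le_mul_of_nonneg_left hr hX0.le
  have hb : r * X / q * z ^ 168 ≤ X := by
    have e1 : r * X / q * z ^ 168 = X * (r * z ^ 84 * z ^ 84) / q := by
      rw [e168]
      ring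
    rw [e1, div_le_iff₀ hq0]
    refine mul_le_mul_of_nonneg_left ?_ hX0.le
    calc r * z ^ 84 * z ^ 84 ≤ (2 * z ^ 64000) * z ^ 84 :=
          mul_le_mul_of_nonneg_right (hr.trans hn2) p84.le
      _ ≤ (z * z ^ 64000) * z ^ 84 := by
          refine mul_le_mul_of_nonneg_right ?_ p84.le
          exact mul_le_mul_of_nonneg_right (by linarith) (pow_pos z0 64000).le
      _ = z ^ 64085 := by
          rw [← pow_succ', ← pow_add]
      _ ≤ z ^ 111900 := pow_le_pow_right₀ z1 (by norm_num)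
      _ ≤ q := hq1
  have hc : 1 / (z ^ 84 * n) * q * z ^ 168 ≤ X := by
    have e1 : 1 / (z ^ 84 * n) * q * z ^ 168 = q * z ^ 84 / n := by
      rw [e168]
      field_simp
    rw [e1, div_le_iff₀ hn0]
    calc q * z ^ 84 ≤ z ^ 144200 * z ^ 84 := mul_le_mul_of_nonneg_right hq2 p84.le
      _ = z ^ 144284 := by rw [← pow_add]
      _ ≤ z ^ 191002 := pow_le_pow_right₀ z1 (by norm_num)
      _ = z ^ 127002 * z ^ 64000 := by rw [← pow_add]
      _ ≤ z ^ 127002 * n := mul_le_mul_of_nonneg_left hn1 (pow_pos z0 127002).le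
      _ ≤ X * n := by
          refine mul_le_mul_of_nonneg_right ?_ hn0.le
          rw [hX]
          have := pow_pos z0 127002
          linarith
  have hd : z ^ 168 ≤ X := by
    calc z ^ 168 ≤ z ^ 127002 := pow_le_pow_right₀ z1 (by norm_num)
      _ ≤ X := by
          rw [hX]
          have := pow_pos z0 127002
          linarith
  have hz3 : 9216 ≤ z ^ 3 := by
    calc (9216 : ℝ) ≤ 30 ^ 3 := by norm_num
      _ ≤ z ^ 3 := pow_le_pow_left₀ (by norm_num) hz 3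
  have hp3 : 0 < z ^ 3 := pow_pos z0 3
  have e168' : z * z ^ 164 * z ^ 3 = z ^ 168 := by
    rw [← pow_succ', ← pow_add]
  have key : z * (768 * (r * X / q + 1) * (1 / (z ^ 84 * n) * q + 1)) * (3 * z ^ 164) * z ^ 3 ≤
      X * z ^ 3 := by
    have e2 : z * (768 * (r * X / q + 1) * (1 / (z ^ 84 * n) * q + 1)) * (3 * z ^ 164) * z ^ 3 =
        2304 * (r * X / q * (1 / (z ^ 84 * n) * q) * (z * z ^ 164 * z ^ 3) +
          r * X / q * (z * z ^ 164 * z ^ 3) + 1 / (z ^ 84 * n) * q * (z * z ^ 164 * z ^ 3) +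
          z * z ^ 164 * z ^ 3) := by
      ring
    rw [e2, e168']
    calc 2304 * (r * X / q * (1 / (z ^ 84 * n) * q) * z ^ 168 +
          r * X / q * z ^ 168 + 1 / (z ^ 84 * n) * q * z ^ 168 + z ^ 168) ≤ 9216 * X := by
          linarith
      _ ≤ z ^ 3 * X := mul_le_mul_of_nonneg_right hz3 hX0.le
      _ = X * z ^ 3 := mul_comm _ _
  exact le_of_mul_le_mul_right key hp3

/-- **CL1** -/
theorem cl1 (hcsp : CspStmt) : Cl1Stmt := by
  obtain ⟨Z₁, h1⟩ := hcsp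
  refine ⟨max Z₁ 30, ?_⟩
  intro Z hZ N Q a t hpar
  obtain ⟨hN1, hN2, hQ1, hQ2, hgcd, ht⟩ := hpar
  have hZ1 : Z₁ ≤ Z := (le_max_left _ _).trans hZ
  have hZ2 : 30 ≤ Z := (le_max_right _ _).trans hZ
  have hZ0 : 0 < Z := by omega
  have hQ0 : 1 ≤ Q := (Nat.one_le_iff_ne_zero.2 (pow_ne_zero _ (by omega))).trans hQ1
  have hN0 : 1 ≤ N := (Nat.one_le_iff_ne_zero.2 (pow_ne_zero _ (by omega))).trans hN1
  have hRX : N / Z ^ 84 * Xz Z ≤ Z ^ 300000 := by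
    calc N / Z ^ 84 * Xz Z ≤ N * Xz Z := Nat.mul_le_mul_right _ (Nat.div_le_self _ _)
      _ ≤ (2 * Z ^ 64000) * Xz Z := Nat.mul_le_mul_right _ hN2
      _ = 16 * Z ^ 191002 := by
          unfold Xz
          rw [show (191002 : ℕ) = 64000 + 127002 from rfl, pow_add]
          ring
      _ ≤ Z * Z ^ 191002 := Nat.mul_le_mul_right _ (by omega)
      _ = Z ^ 191003 := by rw [← pow_succ']
      _ ≤ Z ^ 300000 := Nat.pow_le_pow_right hZ0 (by norm_num)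
  have hz : (30 : ℝ) ≤ (Z : ℝ) := by exact_mod_cast hZ2
  have h2 := h1 Z hZ1 t (1 / ((Z : ℝ) ^ 84 * (N : ℝ))) a Q (N / Z ^ 84) (Xz Z) hQ0 hgcd ht
    (by positivity) hRX
  have hsub : (((Hs (Xz Z)).filter (fun H : ℤ => ∃ r : ℕ, 1 ≤ r ∧ r * Z ^ 84 ≤ N ∧
      Nr (48 * t * (H : ℝ) * (r : ℝ)) (1 / ((Z : ℝ) ^ 84 * (N : ℝ))))).card : ℝ) ≤
      (((Hs (Xz Z)).filter (fun H : ℤ => ∃ r : ℕ, 1 ≤ r ∧ r ≤ N / Z ^ 84 ∧
      Nr (48 * t * (H : ℝ) * (r : ℝ)) (1 / ((Z : ℝ) ^ 84 * (N : ℝ))))).card : ℝ) := by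
    refine Nat.cast_le.2 (Finset.card_le_card ?_)
    intro H hH
    rw [Finset.mem_filter] at hH ⊢
    obtain ⟨hH1, r, hr1, hr2, hr3⟩ := hH
    exact ⟨hH1, r, hr1, (Nat.le_div_iff_mul_le (Nat.pos_of_ne_zero
      (pow_ne_zero _ (by omega)))).2 hr2, hr3⟩
  have hr : ((N / Z ^ 84 : ℕ) : ℝ) * (Z : ℝ) ^ 84 ≤ (N : ℝ) := by
    have h3 : N / Z ^ 84 * Z ^ 84 ≤ N := Nat.div_mul_le_self _ _
    exact_mod_cast h3
  have hX : (Xz Z : ℝ) = 8 * (Z : ℝ) ^ 127002 := by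
    unfold Xz
    rw [Nat.cast_mul, Nat.cast_pow]
    norm_num
  have hn1 : (Z : ℝ) ^ 64000 ≤ (N : ℝ) := by
    rw [← Nat.cast_pow]
    exact Nat.cast_le.2 hN1
  have hn2 : (N : ℝ) ≤ 2 * (Z : ℝ) ^ 64000 := by
    have h3 : (N : ℝ) ≤ ((2 * Z ^ 64000 : ℕ) : ℝ) := Nat.cast_le.2 hN2
    rw [Nat.cast_mul, Nat.cast_pow] at h3
    exact h3
  have hq1 : (Z : ℝ) ^ 111900 ≤ (Q : ℝ) := by
    rw [← Nat.cast_pow]
    exact Nat.cast_le.2 hQ1
  have hq2 : (Q : ℝ) ≤ (Z : ℝ) ^ 144200 := by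
    rw [← Nat.cast_pow]
    exact Nat.cast_le.2 hQ2
  have h4 := cl1_num (z := (Z : ℝ)) (n := (N : ℝ)) (q := (Q : ℝ))
    (r := ((N / Z ^ 84 : ℕ) : ℝ)) (X := (Xz Z : ℝ)) hz hn1 hn2 hq1 hq2 hr hX
  refine le_trans ?_ h4
  refine mul_le_mul_of_nonneg_right (hsub.trans h2) ?_
  exact mul_nonneg (by norm_num) (pow_nonneg (by linarith) _)

end Pool.Agent.K4W.H97
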