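import Pool.Agent.K4W.StmtsU

/-! Row UTR of the squad K4W: absolute convergence of the triple sum. -/

set_option autoImplicit false

namespace Pool.Agent.K4W.H97

open Pool.Agent.K4W

/-- **UTR** -/
theorem utr : UtrStmt := by
  intro f a b ha hb hf
  have h2 : Summable fun p : ℤ × ℤ => ‖f p.1‖ * ‖f p.2‖ :=
    hf.mul_of_nonneg hf (fun _ => norm_nonneg _) (fun _ => norm_nonneg _)
  have h3 : Summable fun p : (ℤ × ℤ) × ℤ => ‖f p.1.1‖ * ‖f p.1.2‖ * ‖f p.2‖ :=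
    h2.mul_of_nonneg hf (fun _ => mul_nonneg (norm_nonneg _) (norm_nonneg _))
      (fun _ => norm_nonneg _)
  have ha0 : (a : ℤ) ≠ 0 := by exact_mod_cast Nat.one_le_iff_ne_zero.1 ha
  have hb0 : (b : ℤ) ≠ 0 := by exact_mod_cast Nat.one_le_iff_ne_zero.1 hb
  have hinj : Function.Injective (fun q : (ℤ × ℤ) × ℤ =>
      ((((q.2, q.2 + (b : ℤ) * q.1.1) : ℤ × ℤ), q.2 + (a : ℤ) * q.1.2) : (ℤ × ℤ) × ℤ)) := by
    rintro ⟨⟨h, m⟩, x⟩ ⟨⟨h', m'⟩, x'⟩ he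
    simp only [Prod.mk.injEq] at he
    obtain ⟨⟨e1, e2⟩, e3⟩ := he
    subst e1
    have e4 : (b : ℤ) * h = (b : ℤ) * h' := by linarith
    have e5 : (a : ℤ) * m = (a : ℤ) * m' := by linarith
    rw [mul_left_cancel₀ hb0 e4, mul_left_cancel₀ ha0 e5]
  have h4 := h3.comp_injective hinj
  refine Summable.of_nonneg_of_le (fun _ => norm_nonneg _) ?_ (h4.mul_left (∑' y : ℤ, ‖f y‖))
  rintro ⟨⟨h, m⟩, x⟩
  have hK : ‖f (x + (a : ℤ) * m + (b : ℤ) * h)‖ ≤ ∑' y : ℤ, ‖f y‖ :=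
    hf.le_tsum _ (fun _ _ => norm_nonneg _)
  simp only [F4, Function.comp, norm_mul, RCLike.norm_conj]
  calc ‖f x‖ * ‖f (x + (b : ℤ) * h)‖ *
        (‖f (x + (a : ℤ) * m)‖ * ‖f (x + (a : ℤ) * m + (b : ℤ) * h)‖) =
        (‖f x‖ * ‖f (x + (b : ℤ) * h)‖ * ‖f (x + (a : ℤ) * m)‖) *
          ‖f (x + (a : ℤ) * m + (b : ℤ) * h)‖ := by ring
    _ ≤ (‖f x‖ * ‖f (x + (b : ℤ) * h)‖ * ‖f (x + (a : ℤ) * m)‖) * ∑' y : ℤ, ‖f y‖ :=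
        mul_le_mul_of_nonneg_left hK (by positivity)
    _ = (∑' y : ℤ, ‖f y‖) * (‖f x‖ * ‖f (x + (b : ℤ) * h)‖ * ‖f (x + (a : ℤ) * m)‖) := by ring

end Pool.Agent.K4W.H97
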